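import Mathlib
import Pool.Agent.R405.BU5

set_option autoImplicit false

/-!
# Vojta's inequality on blow-ups of projective spaces along linear subspaces, at one place

`X` is the blow-up of `ℙ^(a+b-1)` over a number field `k` in the linear subspace
`Λ : x_1 = … = x_a = 0` of dimension `b - 1` (any `a, b ≥ 1`). Its homogeneous (Cox) coordinates are
`(y, e, z)` with `y ≠ 0` in `k^a` and `(e, z) ≠ 0` in `k^(1+b)`; the blow-down map sends the point to
`(e y, z)`, the exceptional divisor is `e = 0`, and `y` is the image of the projection from `Λ` to
`ℙ^(a-1)`. With `H` the pullback of a hyperplane and `F` the pullback of a hyperplane of `ℙ^(a-1)`, the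
coordinates `y`, `e`, `z` have the classes `F`, `H - F`, `H` and `-K_X = (b + 1) H + (a - 1) F`.

The components of `D` are: the exceptional divisor, strict transforms of hyperplanes containing `Λ`
over any extension `K` of `k` (they may be conjugate over `k`), and hyperplanes over `k` not
containing `Λ`. There may be arbitrarily many of them. `S` consists of one arbitrary place.
-/

namespace Pool.Agent.Results.MP_17a322_nt.BlowUps

open NumberField IsDedekindDomain

/-- The places of a number field: the archimedean places and the primes. -/
abbrev Place (k : Type) [Field k] [NumberField k] : Type :=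
  InfinitePlace k ⊕ HeightOneSpectrum (𝓞 k)

/-- The absolute value of a place: the usual one for an archimedean place, and `(N p) ^ (-ord_p x)`
for a prime `p`. -/
noncomputable def Place.value {k : Type} [Field k] [NumberField k] (v : Place k) (x : k) : ℝ :=
  match v with
  | Sum.inl w => w x
  | Sum.inr p => FinitePlace.mk p x

/-- The multiplicity: `1` for a real place, `2` for a complex place, `1` for a prime. -/
noncomputable def Place.mult {k : Type} [Field k] [NumberField k] (v : Place k) : ℝ :=
  match v with
  | Sum.inl w => w.mult
  | Sum.inr _ => 1

/-- The components of `D`: the exceptional divisor, (the strict transform of) the hyperplane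
`∑ l_i x_i = 0` containing `Λ`, and the hyperplane `∑ α_i y_i + ∑ β_j z_j = 0` over `k` (it does not
contain `Λ` if `β ≠ 0`). -/
inductive Component (k K : Type) (a b : ℕ) : Type where
  | exceptional
  | vertical (l : Fin a → K)
  | horizontal (α : Fin a → k) (β : Fin b → k)

variable {k K L : Type} [Field k] [Field K] [Algebra k K] [Field L] [Algebra K L] {a b : ℕ}

/-- The equation of a component in the coordinates `(y, e, z)`, over an extension `L` of `K`. -/
def Component.equation (c : Component k K a b) (y : Fin a → L) (e : L) (z : Fin b → L) : L :=
  match c with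
  | .exceptional => e
  | .vertical l => ∑ i, algebraMap K L (l i) * y i
  | .horizontal α β => (∑ i, algebraMap K L (algebraMap k K (α i)) * y i) * e +
      ∑ j, algebraMap K L (algebraMap k K (β j)) * z j

/-- The gradient of the equation with respect to `(y, e, z)`. -/
def Component.gradient (c : Component k K a b) (y : Fin a → L) (e : L) :
    Fin a ⊕ Unit ⊕ Fin b → L :=
  match c with
  | .exceptional => Sum.elim 0 (Sum.elim 1 0)
  | .vertical l => Sum.elim (fun i => algebraMap K L (l i)) 0
  | .horizontal α β => Sum.elim (fun i => algebraMap K L (algebraMap k K (α i)) * e)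
      (Sum.elim (fun _ => ∑ i, algebraMap K L (algebraMap k K (α i)) * y i)
        (fun j => algebraMap K L (algebraMap k K (β j))))

/-- `D` has normal crossings: at each point of `X`, over each extension field, the gradients of the
equations of the components through the point are linearly independent. -/
def IsNormalCrossings {r : ℕ} (F : Fin r → Component k K a b) : Prop :=
  ∀ (L : Type) [Field L] [Algebra K L] (y : Fin a → L) (e : L) (z : Fin b → L), y ≠ 0 →
    (e ≠ 0 ∨ z ≠ 0) →
    LinearIndependent L (fun l : {l // (F l).equation y e z = 0} => (F l).gradient y e)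

/-- The local height `[k : ℚ] d_v λ_v` of a component at the point `(y, 1, z)` of `X` off the
exceptional divisor, with coordinates in `k`. For the components over `K` a place `w` of `K` above
`v` is used: `|.|_w ^ t` is the extension of `|.|_v` to `K`. -/
noncomputable def localHeight [NumberField k] [NumberField K] (v : Place k) (w : Place K) (t : ℝ)
    (c : Component k K a b) (y : Fin a → k) (z : Fin b → k) : ℝ :=
  v.mult * (match c with
    | .exceptional => Real.log (max (⨆ i, v.value (y i)) (⨆ j, v.value (z j)) /
        ⨆ i, v.value (y i))
    | .vertical l => t * Real.log ((⨆ i, w.value (algebraMap k K (y i))) /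
        w.value (∑ i, l i * algebraMap k K (y i)))
    | .horizontal α β => Real.log (max (⨆ i, v.value (y i)) (⨆ j, v.value (z j)) /
        v.value (∑ i, α i * y i + ∑ j, β j * z j)))

/-- Let `X` be the blow-up of `ℙ^(a+b-1)` over a number field `k` in a linear subspace `Λ` of
codimension `a` over `k`, and `D = ∑ F_i` a normal crossings divisor on `X` whose components are the
exceptional divisor, hyperplanes over `K` containing `Λ`, and hyperplanes over `k` not containing `Λ`.
There is a finite set `Z` of hyperplanes over `k` containing `Λ` such that for each place `v` of `k`,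
each place `w` of `K` above `v` and each `ε > 0` all rational points `(y, 1, z)` of `X` off `D`, `Z`
and the exceptional divisor satisfy `m_{v,D} + h_{K_X} ≤ ε h_H + O(1)`. (All heights are relative
to `k`, not divided by `[k : ℚ]`; `h_{K_X} = -(b + 1) h(y, z) - (a - 1) h(y)`.) -/
theorem result (k K : Type) [Field k] [NumberField k] [Field K] [NumberField K] [Algebra k K]
    (a b : ℕ) (ha : 1 ≤ a) (hb : 1 ≤ b) {r : ℕ} (F : Fin r → Component k K a b)
    (hnc : IsNormalCrossings F) :
    ∃ Z : Finset (Fin a → k), (∀ m ∈ Z, m ≠ 0) ∧
      ∀ (v : Place k) (w : Place K) (t : ℝ), 0 < t →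
        (∀ x : k, w.value (algebraMap k K x) ^ t = v.value x) →
      ∀ ε : ℝ, 0 < ε → ∃ C : ℝ, ∀ (y : Fin a → k) (z : Fin b → k), y ≠ 0 →
        (∀ m ∈ Z, ∑ i, m i * y i ≠ 0) →
        (∀ l, (F l).equation (fun i => algebraMap k K (y i)) 1
          (fun j => algebraMap k K (z j)) ≠ 0) →
        ∑ l, localHeight v w t (F l) y z -
          ((b + 1) * Height.logHeight (Fin.append y z) + (a - 1) * Height.logHeight y) ≤
          ε * Height.logHeight (Fin.append y z) + C := by
  classical
  let c : Fin r → R405.BU.Cmp k K a b := fun l => match F l with
    | .exceptional => .ex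
    | .vertical l => .ve l
    | .horizontal α β => .ho α β
  have hc : ∀ l, c l = match F l with
    | .exceptional => .ex
    | .vertical l => .ve l
    | .horizontal α β => .ho α β := fun l => rfl
  obtain ⟨Z, hZ, hmain⟩ := R405.BU.buT ha hb c (by
    intro M _ _ _ _ y e z hy hez s hs h1 h2 h3
    have heq : ∀ l, (F l).equation y e z = ((c l).bc M).eqn y e z := by
      intro l
      rw [hc l]
      rcases F l with _ | u | ⟨α, β⟩
      · rfl
      · rfl
      · show (∑ i, algebraMap K M (algebraMap k K (α i)) * y i) * e +
          ∑ j, algebraMap K M (algebraMap k K (β j)) * z j =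
          (∑ i, algebraMap k M (α i) * y i) * e + ∑ j, algebraMap k M (β j) * z j
        congr 1
        · congr 1
          exact Finset.sum_congr rfl fun i _ => by rw [← IsScalarTower.algebraMap_apply]
        · exact Finset.sum_congr rfl fun i _ => by rw [← IsScalarTower.algebraMap_apply]
    have hs' : ∀ l, s l ≠ 0 → (F l).equation y e z = 0 := fun l hl => by
      rw [heq]
      exact hs l hl
    have hli := Fintype.linearIndependent_iff.1 (hnc M y e z hy hez) (fun l => s l) (by
      have hall : ∑ l, s l • (F l).gradient y e = 0 := by
        funext i
        rw [Finset.sum_apply, Pi.zero_apply]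
        have hg : ∀ l, (F l).gradient y e = Sum.elim (((c l).bc M).gy e)
            (Sum.elim (fun _ => ((c l).bc M).ge y) ((c l).bc M).gz) := by
          intro l
          rw [hc l]
          rcases F l with _ | u | ⟨α, β⟩
          · rfl
          · funext i
            rcases i with i | i | i
            · rfl
            · rfl
            · rfl
          · funext i
            rcases i with i | i | i
            · show algebraMap K M (algebraMap k K (α i)) * e = e * algebraMap k M (α i)
              rw [← IsScalarTower.algebraMap_apply, mul_comm]
            · show ∑ i, algebraMap K M (algebraMap k K (α i)) * y i = ∑ i, algebraMap k M (α i) * y i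
              exact Finset.sum_congr rfl fun i _ => by rw [← IsScalarTower.algebraMap_apply]
            · show algebraMap K M (algebraMap k K (β i)) = algebraMap k M (β i)
              rw [← IsScalarTower.algebraMap_apply]
        simp only [hg]
        rcases i with i | i | i
        · have := congrFun h1 i
          rw [Finset.sum_apply] at this
          exact this
        · exact h2
        · have := congrFun h3 i
          rw [Finset.sum_apply] at this
          exact this
      rw [← hall]
      refine Eq.trans (Finset.sum_subtype (p := fun l => (F l).equation y e z = 0)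
        (Finset.univ.filter fun l => (F l).equation y e z = 0) (by simp)
        (fun l => s l • (F l).gradient y e)).symm ?_
      apply Finset.sum_subset (Finset.subset_univ _)
      intro l _ hl
      have h6 : s l = 0 := by
        by_contra h7
        exact hl (Finset.mem_filter.2 ⟨Finset.mem_univ _, hs' l h7⟩)
      rw [h6, zero_smul])
    intro l
    by_contra hl
    exact hl (hli ⟨l, hs' l hl⟩))
  refine ⟨Z, hZ, fun v w t ht hvw ε hε => ?_⟩
  have hval : ∀ (k : Type) [Field k] [NumberField k] (v : Place k) (a : k),
      v.value a = Pool.Agent.W180.OP.av v a := by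
    intro k _ _ v a
    rcases v with v | p
    · rfl
    · rfl
  have hmul : v.mult = Pool.Agent.W180.OP.wt v := by
    rcases v with v | p
    · rfl
    · rfl
  obtain ⟨C, hC⟩ := hmain v w t ht (fun a => by
    have := hvw a
    rw [hval, hval] at this
    exact this) ε hε
  refine ⟨C, fun y z hy hZy hoff => ?_⟩
  have hoff' : ∀ l, (c l).eqn (R405.exv K y) 1 (R405.exv K z) ≠ 0 := by
    intro l
    have h1 := hoff l
    rw [hc l]
    rcases hF : F l with _ | u | ⟨α, β⟩
    · rw [hF] at h1
      exact h1
    · rw [hF] at h1
      exact h1
    · rw [hF] at h1
      exact h1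
  have h1 := hC y z hy hZy hoff'
  have h2 : ∀ l, localHeight v w t (F l) y z = Pool.Agent.W180.OP.wt v *
      R405.BU.lhb v w t (c l) y z := by
    intro l
    have h3 := hoff' l
    rw [hc l] at h3 ⊢
    have hny : 0 < Pool.Agent.W180.OP.nrm (Pool.Agent.W180.OP.av v) y :=
      Pool.Agent.W180.OP.nrm_pos _ hy
    have hsz : 0 < R405.BU.siz (Pool.Agent.W180.OP.av v) y z :=
      lt_of_lt_of_le hny (le_max_left _ _)
    have hnw : 0 < Pool.Agent.W180.OP.nrm (Pool.Agent.W180.OP.av w) (R405.exv K y) :=
      Pool.Agent.W180.OP.nrm_pos _ (R405.exv_ne hy)
    unfold localHeight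
    rw [hmul]
    congr 1
    rcases hF : F l with _ | u | ⟨α, β⟩
    · show Real.log (max (⨆ i, v.value (y i)) (⨆ j, v.value (z j)) / ⨆ i, v.value (y i)) =
        Real.log (R405.BU.siz (Pool.Agent.W180.OP.av v) y z) -
          Real.log (Pool.Agent.W180.OP.nrm (Pool.Agent.W180.OP.av v) y)
      simp only [hval]
      rw [← Real.log_div hsz.ne' hny.ne']
      rfl
    · rw [hF] at h3
      have h4 : 0 < Pool.Agent.W180.OP.av w (R405.dot u (R405.exv K y)) :=
        (Pool.Agent.W180.OP.av w).pos_iff.2 h3
      show t * Real.log ((⨆ i, w.value (algebraMap k K (y i))) /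
        w.value (∑ i, u i * algebraMap k K (y i))) =
        t * (Real.log (Pool.Agent.W180.OP.nrm (Pool.Agent.W180.OP.av w) (R405.exv K y)) -
          Real.log (Pool.Agent.W180.OP.av w (R405.dot u (R405.exv K y))))
      simp only [hval]
      rw [← Real.log_div hnw.ne' h4.ne']
      rfl
    · rw [hF] at h3
      have h4 : 0 < Pool.Agent.W180.OP.av v (R405.dot α y + R405.dot β z) := by
        apply (Pool.Agent.W180.OP.av v).pos_iff.2
        intro h0
        apply h3
        show R405.dot (R405.exv K α) (R405.exv K y) * 1 +
          R405.dot (R405.exv K β) (R405.exv K z) = 0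
        have h5 : ∀ {n : ℕ} (u : Fin n → k) (x : Fin n → k),
            R405.dot (R405.exv K u) (R405.exv K x) = algebraMap k K (R405.dot u x) := by
          intro n u x
          simp only [R405.dot, R405.exv, map_sum, map_mul]
        rw [mul_one, h5, h5, ← map_add, h0, map_zero]
      show Real.log (max (⨆ i, v.value (y i)) (⨆ j, v.value (z j)) /
        v.value (∑ i, α i * y i + ∑ j, β j * z j)) =
        Real.log (R405.BU.siz (Pool.Agent.W180.OP.av v) y z) -
          Real.log (Pool.Agent.W180.OP.av v (R405.dot α y + R405.dot β z))
      simp only [hval]
      rw [← Real.log_div hsz.ne' h4.ne']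
      rfl
  simp only [h2]
  linarith

end Pool.Agent.Results.MP_17a322_nt.BlowUps
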