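import Pool.Agent.R404.TC.Cons

set_option autoImplicit false

/-!
# The subspace inequality for hypersurface sections with an additional term at the crossing points

`X = {G = 0}` is a projective scheme in `ℙ^(n-1)` over a number field `k`, of dimension `r`, for
example `X = ℙ^r`, and `D_i = X ∩ {F i = 0}`, `i < q`, are hypersurface sections.
-/

namespace Pool.Agent.Results.MP_17a322_nt.CrossingTerm

open NumberField IsDedekindDomain

/-- The places of a number field: the archimedean places and the primes. -/
abbrev Place (k : Type) [Field k] [NumberField k] : Type :=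
  InfinitePlace k ⊕ HeightOneSpectrum (𝓞 k)

/-- The point with homogeneous coordinates `x` lies on the projective scheme `X = {G = 0}`. -/
def On {k L : Type} [Field k] [Field L] [Algebra k L] {m n : ℕ}
    (G : Fin m → MvPolynomial (Fin n) k) (x : Fin n → L) : Prop :=
  ∀ j, MvPolynomial.aeval x (G j) = 0

/-- The forms `H 0, …, H (r-1)` are a regular sequence in the local ring of `X = {G = 0}` at the
point `y`: `H j` is not a zero divisor in the quotient of this ring by the `H i`, `i < j`. -/
def RegularAt {L : Type} [Field L] {m n r : ℕ} (G : Fin m → MvPolynomial (Fin n) L)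
    (H : Fin r → MvPolynomial (Fin n) L) (y : Fin n → L) : Prop :=
  ∀ (j : Fin r) (u : MvPolynomial (Fin n) L),
    H j * u ∈ Ideal.span (Set.range G ∪ H '' Set.Iio j) →
      ∃ (h : MvPolynomial (Fin n) L) (e : ℕ), h.IsHomogeneous e ∧ MvPolynomial.eval y h ≠ 0 ∧
        h * u ∈ Ideal.span (Set.range G ∪ H '' Set.Iio j)

/-- The local height `d_v λ_{D,v}` of the hypersurface `F = 0` of degree `d` at the point with
homogeneous coordinates `x`, where `d_v = [k_v : ℚ_v] / [k : ℚ]`. (The absolute value of a prime `p`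
is the normalised one, with the value `(N p) ^ (-ord_p x)` at `x ≠ 0`.) -/
noncomputable def localHeight {k : Type} [Field k] [NumberField k] {n : ℕ} (v : Place k) (d : ℕ)
    (F : MvPolynomial (Fin n) k) (x : Fin n → k) : ℝ :=
  match v with
  | Sum.inl w => w.mult * Real.log ((⨆ j, w (x j)) ^ d / w (MvPolynomial.eval x F)) /
      Module.finrank ℚ k
  | Sum.inr p => Real.log ((⨆ j, FinitePlace.mk p (x j)) ^ d /
      FinitePlace.mk p (MvPolynomial.eval x F)) / Module.finrank ℚ k

/-- The absolute logarithmic height. -/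
noncomputable def height {k : Type} [Field k] [NumberField k] {n : ℕ} (x : Fin n → k) : ℝ :=
  Height.logHeight x / Module.finrank ℚ k

/-- The `r`-th largest of the numbers `a i`, the maximum of `min (a (σ 0), …, a (σ (r-1)))` over all
choices `σ` of `r` different indices. For the local heights `a i` of the `D_i` it is a local height
of the scheme of all points which lie on `r` of the `D_i` (the crossing points). -/
noncomputable def rthLargest {q : ℕ} (r : ℕ) (a : Fin q → ℝ) : ℝ :=
  ⨆ σ : {σ : Fin r → Fin q // Function.Injective σ}, ⨅ j, a (σ.1 j)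

/-- Let `X = {G = 0}` be a projective scheme over a number field `k` and let `F 0, …, F (q-1)`, be
forms of positive degrees `d i` such that no `r + 1` of the `D_i = X ∩ {F i = 0}` have a common point
and any `r` of them have at least two common geometric points, at which their equations are a
regular sequence in the local ring of `X` (which is automatic for `X = ℙ^r`, `G` empty and
`n = r + 1`). There is `c > 0`, depending only on `X` and the `D_i`, such that for all finite
sets `S` of places and all `ε > 0` there are a finite set `Z` of forms, not in the ideal of `X`, and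
a constant `C` with
`∑_{v ∈ S} d_v (∑_i λ_{D_i,v}(x) / d_i + c λ_{crossing points,v}(x)) ≤ (r + 1 + ε) h(x) + C`
for all `x ∈ X(k)` off the `D_i` and off the zeros of the forms in `Z`. -/
theorem result (k : Type) [Field k] [NumberField k] (m n q r : ℕ) (hr0 : 0 < r) (hr : r < q)
    (G : Fin m → MvPolynomial (Fin n) k) (g : Fin m → ℕ) (hG : ∀ j, (G j).IsHomogeneous (g j))
    (F : Fin q → MvPolynomial (Fin n) k) (d : Fin q → ℕ) (hF : ∀ i, (F i).IsHomogeneous (d i))
    (hd : ∀ i, 0 < d i)
    (hno : ∀ T : Finset (Fin q), T.card = r + 1 → ∀ (L : Type) [Field L] [Algebra k L]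
      (x : Fin n → L), On G x → (∀ i ∈ T, MvPolynomial.aeval x (F i) = 0) → x = 0)
    (htwo : ∀ σ : Fin r → Fin q, StrictMono σ → ∃ x y : Fin n → AlgebraicClosure k,
      LinearIndependent (AlgebraicClosure k) ![x, y] ∧ On G x ∧ On G y ∧
      ∀ j, MvPolynomial.aeval x (F (σ j)) = 0 ∧ MvPolynomial.aeval y (F (σ j)) = 0)
    (hreg : (m = 0 ∧ n = r + 1) ∨ ∀ σ : Fin r → Fin q, StrictMono σ → ∀ (L : Type) [Field L]
      [Algebra k L] (y : Fin n → L), y ≠ 0 → On G y →
      (∀ j, MvPolynomial.aeval y (F (σ j)) = 0) →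
        RegularAt (fun j => MvPolynomial.map (algebraMap k L) (G j))
          (fun j => MvPolynomial.map (algebraMap k L) (F (σ j))) y) :
    ∃ c : ℝ, 0 < c ∧ ∀ (S : Finset (Place k)) (ε : ℝ), 0 < ε →
      ∃ (t : ℕ) (Z : Finset (MvPolynomial (Fin n) k)) (C : ℝ),
        (∀ Φ ∈ Z, Φ.IsHomogeneous t ∧ Φ ∉ Ideal.span (Set.range G)) ∧
        ∀ x : Fin n → k, x ≠ 0 → On G x → (∀ i, MvPolynomial.eval x (F i) ≠ 0) →
          (∀ Φ ∈ Z, MvPolynomial.eval x Φ ≠ 0) →
          ∑ v ∈ S, (∑ i, localHeight v (d i) (F i) x / d i +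
            c * rthLargest r fun i => localHeight v (d i) (F i) x) ≤
            (r + 1 + ε) * height x + C := by
  classical
  obtain ⟨c, hc, hI⟩ := Pool.Agent.R404.TC.final G g hG hr0 hr F d hd hF
    (fun T hT L _ _ x hx1 hx2 => hno T hT L x hx1 hx2)
    (by
      intro σ hσ
      obtain ⟨x, y, hxy, hx, hy, h⟩ := htwo σ hσ
      exact ⟨x, y, hxy, hx, hy, fun j => (h j).1, fun j => (h j).2⟩)
    (by
      rcases hreg with h | h
      · exact Or.inl h
      · refine Or.inr fun σ hσ L _ _ y hy hyG hyF j u hu => ?_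
        rw [← Ideal.span_union] at hu ⊢
        exact h σ hσ L y hy hyG hyF j u hu)
  refine ⟨c, hc, fun S ε hε => ?_⟩
  obtain ⟨t, Z, C, hZ, hC⟩ := hI S ε hε
  set N : ℝ := ((Module.finrank ℚ k : ℕ) : ℝ) with hN
  have hN0 : (0 : ℝ) < N := by
    rw [hN]
    exact_mod_cast Module.finrank_pos
  refine ⟨t, Z, C / N, hZ, fun x hx hxG hxF hxZ => ?_⟩
  have hev : ∀ p : MvPolynomial (Fin n) k, MvPolynomial.aeval x p = MvPolynomial.eval x p :=
    fun p => DFunLike.congr_fun (MvPolynomial.coe_aeval_eq_eval x) p
  have hl : ∀ v i, localHeight v (d i) (F i) x =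
      Pool.Agent.W180.OP.wt v * Pool.Agent.W180.OP.lam (Pool.Agent.W180.OP.av v) (d i) (F i) x /
        N := by
    intro v i
    rcases v with w | p
    · rfl
    · show Real.log _ / _ = 1 * _ / _
      rw [one_mul]
      rfl
  have hwt : ∀ v : Place k, 0 < Pool.Agent.W180.OP.wt v := by
    intro v
    rcases v with w | p
    · show (0 : ℝ) < (w.mult : ℝ)
      exact_mod_cast InfinitePlace.mult_pos
    · exact one_pos
  -- the maximum is attained
  have hne : Nonempty {σ : Fin r → Fin q // Function.Injective σ} :=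
    ⟨⟨Fin.castLE hr.le, Fin.castLE_injective hr.le⟩⟩
  have hsup : ∀ v : Place k, ∃ σ : {σ : Fin r → Fin q // Function.Injective σ},
      (⨅ j, localHeight v (d (σ.1 j)) (F (σ.1 j)) x) =
        rthLargest r fun i => localHeight v (d i) (F i) x := fun v =>
    exists_eq_ciSup_of_finite
  choose σ hσ using hsup
  have hfin : Nonempty (Fin r) := ⟨⟨0, hr0⟩⟩
  have h1 := hC x hx (fun j => by rw [← hev]; exact hxG j) hxF hxZ (fun v => (σ v).1)
    (fun v => (σ v).2)
    (fun v => N / Pool.Agent.W180.OP.wt v * rthLargest r fun i => localHeight v (d i) (F i) x) (by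
      intro v _ j
      rw [← hσ v]
      have h2 : (⨅ j, localHeight v (d ((σ v).1 j)) (F ((σ v).1 j)) x) ≤
          localHeight v (d ((σ v).1 j)) (F ((σ v).1 j)) x :=
        ciInf_le (Set.finite_range _).bddBelow j
      rw [hl v ((σ v).1 j), le_div_iff₀ hN0] at h2
      rw [div_mul_eq_mul_div, div_le_iff₀ (hwt v)]
      linarith)
  have h2 : ∀ v ∈ S, Pool.Agent.W180.OP.wt v * (∑ i, Pool.Agent.W180.OP.lam
      (Pool.Agent.W180.OP.av v) (d i) (F i) x / d i + c * (N / Pool.Agent.W180.OP.wt v *
        rthLargest r fun i => localHeight v (d i) (F i) x)) =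
      N * (∑ i, localHeight v (d i) (F i) x / d i +
            c * rthLargest r fun i => localHeight v (d i) (F i) x) := by
    intro v _
    have e1 := (hwt v).ne'
    have e2 : ∑ i, localHeight v (d i) (F i) x / d i = Pool.Agent.W180.OP.wt v *
        (∑ i, Pool.Agent.W180.OP.lam (Pool.Agent.W180.OP.av v) (d i) (F i) x / d i) / N := by
      rw [Finset.mul_sum, Finset.sum_div]
      refine Finset.sum_congr rfl fun i _ => ?_
      rw [hl v i]
      ring
    rw [e2]
    field_simp
  rw [Finset.sum_congr rfl h2, ← Finset.mul_sum] at h1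
  have h3 : (r + 1 + ε) * height x + C / N = ((r + 1 + ε) * Height.logHeight x + C) / N := by
    rw [height, ← hN]
    ring
  rw [h3, le_div_iff₀ hN0, mul_comm]
  exact h1

end Pool.Agent.Results.MP_17a322_nt.CrossingTerm
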