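import Mathlib
import Pool.Agent.R405.Fin1

set_option autoImplicit false

/-!
# Vojta's inequality on the plane at one place: normal crossings divisors of lines and conics

`k` is a number field and `D` a normal crossings divisor of `ℙ²` over `k`, the equation `G = 0` with
`G` over `k`. The geometric components of `D` are lines, defined over any finite extension `K` of `k`
(they may be conjugate over `k`), and conics defined over `k`. `S` consists of one arbitrary place.
-/

namespace Pool.Agent.Results.MP_17a322_nt.LinesAndConics

open MvPolynomial NumberField IsDedekindDomain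

/-- The places of a number field: the archimedean places and the primes. -/
abbrev Place (k : Type) [Field k] [NumberField k] : Type :=
  InfinitePlace k ⊕ HeightOneSpectrum (𝓞 k)

/-- The local height `[k : ℚ] d_v λ_{D,v}` of the curve `D = {G = 0}` of degree `e` in `ℙ²` at the
point with homogeneous coordinates `x`. The absolute value of a prime `p` is the normalised one,
with the value `(N p) ^ (-ord_p x)` at `x ≠ 0`; a complex place has multiplicity `2`, a real place
has multiplicity `1`. -/
noncomputable def localHeight {k : Type} [Field k] [NumberField k] (v : Place k) (e : ℕ)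
    (G : MvPolynomial (Fin 3) k) (x : Fin 3 → k) : ℝ :=
  match v with
  | Sum.inl w => w.mult * Real.log ((⨆ j, w (x j)) ^ e / w (eval x G))
  | Sum.inr p => Real.log ((⨆ j, FinitePlace.mk p (x j)) ^ e / FinitePlace.mk p (eval x G))

/-- The curves `F j = 0` in `ℙ²` are smooth, they cross transversally, and no three of them have a
common point: at each point, over each extension field, the gradients of the `F j` that vanish there
are linearly independent. -/
def IsNormalCrossings {K : Type} [Field K] {q : ℕ} (F : Fin q → MvPolynomial (Fin 3) K) : Prop :=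
  ∀ (L : Type) [Field L] [Algebra K L] (x : Fin 3 → L), x ≠ 0 →
    LinearIndependent L (fun (j : {j : Fin q // aeval x (F j) = 0}) (i : Fin 3) =>
      aeval x (pderiv i (F j)))

/-- The line `∑ m_b x_b = 0` over `k` contains a crossing point `y` of two of the curves `F j = 0`
which is not a `k`-rational point of the plane. -/
def ContainsIrrationalCrossing (k : Type) {K : Type} [Field k] [Field K] [Algebra k K] {q : ℕ}
    (F : Fin q → MvPolynomial (Fin 3) K) (m : Fin 3 → k) : Prop :=
  ∃ (L : Type) (_ : Field L) (_ : Algebra K L) (y : Fin 3 → L), y ≠ 0 ∧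
    (∃ i j, i ≠ j ∧ aeval y (F i) = 0 ∧ aeval y (F j) = 0) ∧
    (¬ ∃ (y0 : Fin 3 → k) (c : L), y = c • fun b => algebraMap K L (algebraMap k K (y0 b))) ∧
    ∑ b, algebraMap K L (algebraMap k K (m b)) * y b = 0

/-- Let `D = {G = 0}` be a normal crossings divisor of the plane over a number field `k` whose
geometric components `F i = 0` are lines, defined over an extension `K` of `k`, and conics defined
over `k`. There is a finite set `Z` of lines over `k`, each of them through a crossing point of `D`
which is not rational over `k`, such that for each place `v` of `k` and each `ε > 0` all rational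
points `x` off `D` and off `Z` satisfy `m_{v,D}(x) + h_K(x) ≤ ε h(x) + O(1)`. (All heights are
relative to `k`, not divided by `[k : ℚ]`; `h_K = -3 h`.) -/
theorem result (k K : Type) [Field k] [NumberField k] [Field K] [NumberField K] [Algebra k K]
    (q : ℕ) (F : Fin q → MvPolynomial (Fin 3) K) (d : Fin q → ℕ)
    (hF : ∀ i, (F i).IsHomogeneous (d i)) (hnc : IsNormalCrossings F)
    (hd : ∀ i, d i = 1 ∨ (d i = 2 ∧ ∃ Q : MvPolynomial (Fin 3) k, F i = map (algebraMap k K) Q))
    (G : MvPolynomial (Fin 3) k) (hG : map (algebraMap k K) G = ∏ i, F i) :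
    ∃ Z : Finset (Fin 3 → k), (∀ m ∈ Z, m ≠ 0 ∧ ContainsIrrationalCrossing k F m) ∧
      ∀ (v : Place k) (ε : ℝ), 0 < ε → ∃ C : ℝ, ∀ x : Fin 3 → k, x ≠ 0 → eval x G ≠ 0 →
        (∀ m ∈ Z, ∑ j, m j * x j ≠ 0) →
        localHeight v (∑ i, d i) G x - 3 * Height.logHeight x ≤ ε * Height.logHeight x + C := by
  obtain ⟨Z, hZ, hmain⟩ := Pool.Agent.R405.mainT (k := k) F d hF hnc hd G hG
  refine ⟨Z, hZ, fun v ε hε => ?_⟩
  obtain ⟨C, hC⟩ := hmain v ε hε
  refine ⟨C, fun x hx hGx hZx => ?_⟩
  have h1 := hC x hx hGx hZx
  have h2 : localHeight v (∑ i, d i) G x = Pool.Agent.W180.OP.wt v *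
      Pool.Agent.W180.OP.lam (Pool.Agent.W180.OP.av v) (∑ i, d i) G x := by
    rcases v with w | p
    · rfl
    · exact (one_mul _).symm
  rw [h2]
  linarith

end Pool.Agent.Results.MP_17a322_nt.LinesAndConics
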