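import Mathlib
import Pool.Agent.R405.QS5

set_option autoImplicit false

/-!
# Vojta's inequality on all smooth quadric surfaces at one place

`k` is a number field, `X ⊂ ℙ³` a smooth quadric surface over `k` (its two rulings may be defined over
`k` or conjugate over `k`), and `D` is a normal crossings divisor on `X` whose geometric components
are lines of `X`, defined over any finite extension `K` of `k` (they may be conjugate over `k`), and
plane sections of `X` defined over `k`. `S` consists of one arbitrary place. The canonical class is
`K_X = -2 H` where `H` is the class of a plane section.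
-/

namespace Pool.Agent.Results.MP_17a322_nt.QuadricSurfaces

open NumberField IsDedekindDomain

/-- The places of a number field: the archimedean places and the primes. -/
abbrev Place (k : Type) [Field k] [NumberField k] : Type :=
  InfinitePlace k ⊕ HeightOneSpectrum (𝓞 k)

/-- The absolute value of a place: the usual one for an archimedean place, and `(N p) ^ (-ord_p x)`
for a prime `p`. -/
noncomputable def Place.value {k : Type} [Field k] [NumberField k] (v : Place k) (x : k) : ℝ :=
  match v with
  | Sum.inl w => w x
  | Sum.inr p => FinitePlace.mk p x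

/-- The multiplicity: `1` for a real place, `2` for a complex place, `1` for a prime. -/
noncomputable def Place.mult {k : Type} [Field k] [NumberField k] (v : Place k) : ℝ :=
  match v with
  | Sum.inl w => w.mult
  | Sum.inr _ => 1

/-- The components of `D`: lines `M 0 = M 1 = 0` over `K` and plane sections `m = 0` over `k`. -/
inductive Component (k K : Type) : Type where
  | line (M : Fin 2 → Fin 4 → K)
  | planeSection (m : Fin 4 → k)

/-- The two linear forms that define the component in `X` (twice the same one for a plane section).
They generate the ideal of the component in the homogeneous coordinate ring of `X`. -/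
def Component.forms {k K : Type} [Field k] [Field K] [Algebra k K] (c : Component k K) (i : Fin 2)
    (j : Fin 4) : K :=
  match c with
  | .line M => M i j
  | .planeSection m => algebraMap k K (m j)

/-- The point `y`, with coordinates in an extension `L` of `K`, is on the line or in the plane. -/
def Component.Contains {k K L : Type} [Field k] [Field K] [Algebra k K] [Field L] [Algebra K L]
    (c : Component k K) (y : Fin 4 → L) : Prop :=
  ∀ i, ∑ j, algebraMap K L (c.forms i j) * y j = 0

/-- The bilinear form `y^T A z` over an extension `L` of `K`. The surface `X` is `y^T A y = 0` and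
its tangent plane at `y` is the set of all `z` with `y^T A z = 0`. -/
def bilinear (K : Type) {k L : Type} [Field k] [Field K] [Algebra k K] [Field L] [Algebra K L]
    (A : Matrix (Fin 4) (Fin 4) k) (y z : Fin 4 → L) : L :=
  ∑ i, ∑ j, algebraMap K L (algebraMap k K (A i j)) * y i * z j

/-- A line is given by linearly independent forms and is contained in `X`. -/
def Component.IsValid {k K : Type} [Field k] [Field K] [Algebra k K]
    (A : Matrix (Fin 4) (Fin 4) k) (c : Component k K) : Prop :=
  match c with
  | .line M => LinearIndependent K M ∧
      ∀ (L : Type) [Field L] [Algebra K L] (y : Fin 4 → L),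
        (Component.line M : Component k K).Contains y → bilinear K A y y = 0
  | .planeSection m => m ≠ 0

/-- `D` has normal crossings: at a point `y` of `X`, over any extension `L` of `K`, two components
through `y` have different tangents (a common tangent vector `z` is a multiple of `y`), and no three
components pass through `y`. -/
def IsNormalCrossings {k K : Type} [Field k] [Field K] [Algebra k K]
    (A : Matrix (Fin 4) (Fin 4) k) {r : ℕ} (F : Fin r → Component k K) : Prop :=
  ∀ (L : Type) [Field L] [Algebra K L] (y : Fin 4 → L), y ≠ 0 → bilinear K A y y = 0 →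
    (∀ i j, i ≠ j → (F i).Contains y → (F j).Contains y →
      ∀ z : Fin 4 → L, (F i).Contains z → (F j).Contains z → bilinear K A y z = 0 →
        ∃ s : L, z = s • y) ∧
    (∀ i j l, i ≠ j → i ≠ l → j ≠ l → (F i).Contains y → (F j).Contains y → ¬ (F l).Contains y)

/-- The local height `[k : ℚ] d_v λ_v` of a component at a point `x` with coordinates in `k`, for a
place `w` of `K` above the place `v` of `k`: `|.|_w ^ t` is the extension of `|.|_v` to `K`. It is
`log (max_j |x_j| / max_i |M_i(x)|)` for the linear forms `M_i` of the component. -/
noncomputable def localHeight {k K : Type} [Field k] [NumberField k] [Field K] [NumberField K]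
    [Algebra k K] (v : Place k) (w : Place K) (t : ℝ) (c : Component k K) (x : Fin 4 → k) : ℝ :=
  v.mult * (t * Real.log ((⨆ j, w.value (algebraMap k K (x j))) /
    (⨆ i : Fin 2, w.value (∑ j, c.forms i j * algebraMap k K (x j)))))

/-- Let `X : x^T A x = 0` be a smooth quadric surface over a number field `k` and `D = ∑ F_i` a normal
crossings divisor on `X` whose components are lines of `X` over an extension `K` of `k` and plane
sections of `X` over `k`. There is a finite set `Z` of plane sections over `k` such that for each
place `v` of `k`, each place `w` of `K` above `v` and each `ε > 0` all rational points `x` of `X` off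
`D` and off `Z` satisfy `m_{v,D}(x) + h_{K_X}(x) ≤ ε h(x) + O(1)`. (All heights are relative to `k`,
not divided by `[k : ℚ]`; `h_{K_X} = -2 h`. If `D` is defined over `k` then its local height at `v`
is the sum over the geometric components, for any place `w` above `v`.) -/
theorem result (k K : Type) [Field k] [NumberField k] [Field K] [NumberField K] [Algebra k K]
    (A : Matrix (Fin 4) (Fin 4) k) (hA : A.IsSymm) (hdet : A.det ≠ 0)
    {r : ℕ} (F : Fin r → Component k K) (hF : ∀ i, (F i).IsValid A)
    (hnc : IsNormalCrossings A F) :
    ∃ Z : Finset (Fin 4 → k), (∀ m ∈ Z, m ≠ 0) ∧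
      ∀ (v : Place k) (w : Place K) (t : ℝ), 0 < t →
        (∀ a : k, w.value (algebraMap k K a) ^ t = v.value a) →
      ∀ ε : ℝ, 0 < ε → ∃ C : ℝ, ∀ x : Fin 4 → k, x ≠ 0 → ∑ i, ∑ j, A i j * x i * x j = 0 →
        (∀ i, ¬ (F i).Contains (fun j => algebraMap k K (x j))) →
        (∀ m ∈ Z, ∑ j, m j * x j ≠ 0) →
        ∑ i, localHeight v w t (F i) x - 2 * Height.logHeight x ≤
          ε * Height.logHeight x + C := by
  classical
  let c : Fin r → (Fin 2 → Fin 4 → K) ⊕ (Fin 4 → k) := fun i => match F i with
    | .line M => Sum.inl M
    | .planeSection m => Sum.inr m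
  have hfs : ∀ i j l, R405.QS.fs (c i) j l = (F i).forms j l := by
    intro i j l
    show R405.QS.fs (match F i with
      | .line M => Sum.inl M
      | .planeSection m => Sum.inr m) j l = _
    cases F i with
    | line M => rfl
    | planeSection m => rfl
  have hthr : ∀ (L : Type) [Field L] [Algebra K L] (y : Fin 4 → L) (i : Fin r),
      R405.QS.Thr (c i) y ↔ (F i).Contains y := by
    intro L _ _ y i
    unfold R405.QS.Thr Component.Contains
    simp only [hfs]
  obtain ⟨Z, hZ, hmain⟩ := R405.QS.quadT A hA hdet c (by
    intro i g hi
    have h1 := hF i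
    have h2 : F i = .line g := by
      have h3 : (match F i with
      | .line M => Sum.inl M
      | .planeSection m => Sum.inr m : (Fin 2 → Fin 4 → K) ⊕ (Fin 4 → k)) = Sum.inl g := hi
      revert h3
      cases F i with
      | line M =>
        intro h3
        rw [Sum.inl.inj h3]
      | planeSection m =>
        intro h3
        cases h3
    rw [h2] at h1
    obtain ⟨h3, h4⟩ := h1
    refine ⟨fun s t hst => ?_, fun L _ _ y hy => ?_⟩
    · have h5 := Fintype.linearIndependent_iff.1 h3 ![s, t] (by
        rw [Fin.sum_univ_two]
        exact hst)
      exact ⟨h5 0, h5 1⟩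
    · refine h4 L y ?_
      rw [← h2]
      exact (hthr L y i).1 hy) (by
    intro L _ _ y hy hq
    obtain ⟨h1, h2⟩ := hnc L y hy hq
    refine ⟨fun i j hij hi hj z hzi hzj hz => ?_, fun i j l hij hil hjl hi hj hl => ?_⟩
    · exact h1 i j hij ((hthr L y i).1 hi) ((hthr L y j).1 hj) z ((hthr L z i).1 hzi)
        ((hthr L z j).1 hzj) hz
    · exact h2 i j l hij hil hjl ((hthr L y i).1 hi) ((hthr L y j).1 hj) ((hthr L y l).1 hl))
  refine ⟨Z, hZ, fun v w t ht hvw ε hε => ?_⟩
  have hval : ∀ (k : Type) [Field k] [NumberField k] (v : Place k) (a : k),
      v.value a = Pool.Agent.W180.OP.av v a := by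
    intro k _ _ v a
    rcases v with v | p
    · rfl
    · rfl
  have hmul : v.mult = Pool.Agent.W180.OP.wt v := by
    rcases v with v | p
    · rfl
    · rfl
  obtain ⟨C, hC⟩ := hmain v w t ht (fun a => by
    have := hvw a
    rw [hval, hval] at this
    exact this) ε hε
  refine ⟨C, fun x hx hq hoff hZx => ?_⟩
  have hoff' : ∀ i, ∃ j, R405.dot (R405.QS.fs (c i) j) (R405.exv K x) ≠ 0 := by
    intro i
    by_contra hcon
    push Not at hcon
    apply hoff i
    intro j
    have h1 := hcon j
    unfold R405.dot at h1
    simp only [hfs] at h1
    exact h1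
  have h1 := hC x hx hq hoff' hZx
  have h2 : ∀ i, localHeight v w t (F i) x = Pool.Agent.W180.OP.wt v *
      (t * R405.QS.lm (Pool.Agent.W180.OP.av w) (R405.QS.fs (c i)) (R405.exv K x)) := by
    intro i
    obtain ⟨j, hj⟩ := hoff' i
    have hnn : 0 < R405.QS.nn (Pool.Agent.W180.OP.av w) (R405.QS.fs (c i)) (R405.exv K x) :=
      R405.QS.nn_pos hj
    have hN : 0 < Pool.Agent.W180.OP.nrm (Pool.Agent.W180.OP.av w) (R405.exv K x) :=
      Pool.Agent.W180.OP.nrm_pos _ (R405.exv_ne hx)
    unfold localHeight R405.QS.lm
    rw [hmul, ← Real.log_div hN.ne' hnn.ne']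
    congr 4
    · unfold Pool.Agent.W180.OP.nrm
      congr 1
      funext j
      rw [hval]
      rfl
    · have h3 : ∀ i' : Fin 2, w.value (∑ j, (F i).forms i' j * algebraMap k K (x j)) =
          Pool.Agent.W180.OP.av w (R405.dot (R405.QS.fs (c i) i') (R405.exv K x)) := by
        intro i'
        rw [hval]
        unfold R405.dot
        simp only [hfs]
        rfl
      simp only [h3]
      apply le_antisymm
      · exact ciSup_le fun i' => R405.QS.le_nn _ _ _ i'
      · exact R405.QS.nn_le fun i' => le_ciSup (f := fun i' : Fin 2 => Pool.Agent.W180.OP.av w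
          (R405.dot (R405.QS.fs (c i) i') (R405.exv K x))) (Set.finite_range _).bddAbove i'
  simp only [h2]
  linarith

end Pool.Agent.Results.MP_17a322_nt.QuadricSurfaces
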